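import Mathlib

/-!
# Project SN (helper264): the Schrijver number of strong products (MP_885abb_co)

Definitions.
-/

namespace Pool.Agent.Q264.SN

open Finset

/-- A feasible matrix of the Schrijver number of `G`: positive semidefinite, entrywise nonnegative, of trace `1`,
with entry `0` at each pair of adjacent vertices. -/
def Feasible {V : Type} [Fintype V] (G : SimpleGraph V) (X : Matrix V V ℝ) : Prop :=
  X.PosSemidef ∧ (∀ u v, 0 ≤ X u v) ∧ X.trace = 1 ∧ ∀ u v, G.Adj u v → X u v = 0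

/-- The sums of the entries of the feasible matrices. -/
def values {V : Type} [Fintype V] (G : SimpleGraph V) : Set ℝ :=
  {t : ℝ | ∃ X : Matrix V V ℝ, Feasible G X ∧ t = ∑ u, ∑ v, X u v}

/-- The Schrijver number `ϑ'(G)`. -/
noncomputable def schrijver {V : Type} [Fintype V] (G : SimpleGraph V) : ℝ :=
  sSup (values G)

/-- The strong product of a family of graphs. -/
def strongProd {ι : Type} {V : ι → Type} (G : ∀ i, SimpleGraph (V i)) : SimpleGraph (∀ i, V i) where
  Adj x y := x ≠ y ∧ ∀ i, x i = y i ∨ (G i).Adj (x i) (y i)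
  symm := ⟨fun _ _ h => ⟨h.1.symm, fun i => (h.2 i).imp Eq.symm (fun a => a.symm)⟩⟩
  loopless := ⟨fun _ h => h.1 rfl⟩

/-- The strong square on pairs. -/
def strongSq {V : Type} (G : SimpleGraph V) : SimpleGraph (V × V) where
  Adj p q := p ≠ q ∧ (p.1 = q.1 ∨ G.Adj p.1 q.1) ∧ (p.2 = q.2 ∨ G.Adj p.2 q.2)
  symm := ⟨fun _ _ h => ⟨h.1.symm, h.2.1.imp Eq.symm (fun a => a.symm), h.2.2.imp Eq.symm (fun a => a.symm)⟩⟩
  loopless := ⟨fun _ h => h.1 rfl⟩

/-- The cube. -/
abbrev Cube (N : ℕ) : Type := Fin N → Bool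

/-- The sign of a bit. -/
def sg (b : Bool) : ℝ := if b then 1 else -1

/-- The inner product of two sign vectors. -/
def dot {N : ℕ} (x y : Cube N) : ℝ := ∑ i, sg (x i) * sg (y i)

/-- The graph on the cube: distinct `x, y` are adjacent iff `⟨x, y⟩ > - σ N`. -/
def cubeGraph (N : ℕ) (σ : ℝ) : SimpleGraph (Cube N) where
  Adj x y := x ≠ y ∧ -(σ * N) < dot x y
  symm := ⟨fun x y h => ⟨h.1.symm, by
    have : dot y x = dot x y := by simp only [dot]; exact Finset.sum_congr rfl fun i _ => mul_comm _ _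
    rw [this]; exact h.2⟩⟩
  loopless := ⟨fun _ h => h.1 rfl⟩

/-- The noise kernel: the coordinates of `y` are independent, and `x_i y_i` has mean `s`. -/
noncomputable def ker {N : ℕ} (s : ℝ) (x y : Cube N) : ℝ := ∏ i, (1 + s * (sg (x i) * sg (y i))) / 2

/-- The character of `S`. -/
def chi {N : ℕ} (S : Finset (Fin N)) (x : Cube N) : ℝ := ∏ i ∈ S, sg (x i)

end Pool.Agent.Q264.SN
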