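import Pool.Agent.Q264.SN.Stm

/-!
# Project SN: the feasible matrix on the strong square (FEAS)
-/

namespace Pool.Agent.Q264.SN

open Finset Matrix

/-- pairs -/
abbrev PP (N : ℕ) : Type := Cube N × Cube N

lemma sg_mul_self (b : Bool) : sg b * sg b = 1 := by cases b <;> simp [sg]

lemma sg_abs_le (a b : Bool) : |sg a * sg b| ≤ 1 := by cases a <;> cases b <;> simp [sg]

lemma dot_self {N : ℕ} (x : Cube N) : dot x x = N := by simp [dot, sg_mul_self]

lemma dot_comm {N : ℕ} (x y : Cube N) : dot x y = dot y x := by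
  simp only [dot]; exact Finset.sum_congr rfl fun i _ => mul_comm _ _

lemma ker_comm {N : ℕ} (s : ℝ) (x y : Cube N) : ker s x y = ker s y x := by
  simp only [ker]; exact Finset.prod_congr rfl fun i _ => by rw [mul_comm (sg (x i))]

lemma ker_nonneg {N : ℕ} {s : ℝ} (hs : |s| ≤ 1) (x y : Cube N) : 0 ≤ ker s x y := by
  refine Finset.prod_nonneg fun i _ => ?_
  have h1 : |s * (sg (x i) * sg (y i))| ≤ 1 := by
    rw [abs_mul]
    calc |s| * |sg (x i) * sg (y i)| ≤ 1 * 1 := by
          exact mul_le_mul hs (sg_abs_le _ _) (abs_nonneg _) zero_le_one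
      _ = 1 := by ring
  have h2 := (abs_le.mp h1).1
  linarith

open Classical in
theorem t_FEAS (hROW : S_ROW) (hFOUR : S_FOUR) (hONE : S_ONE) : S_FEAS := by
  intro N σ M η τ n w s t hN hσ hM hMητ hw hw1 hst htail hmom
  have hROW' : ∀ (N : ℕ) (s : ℝ) (x : Cube N), ∑ y, ker s x y = 1 := hROW
  have hNr : (0:ℝ) < N := by exact_mod_cast hN
  -- the region
  let reg : PP N → PP N → Prop := fun p q => dot p.1 q.1 ≤ -(σ * N) ∨ dot p.2 q.2 ≤ -(σ * N)
  let ind : PP N → PP N → ℝ := fun p q => if reg p q then 1 else 0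
  let kk : Fin n → PP N → PP N → ℝ := fun k p q => ker (s k) p.1 q.1 * ker (t k) p.2 q.2
  have hind0 : ∀ p q, 0 ≤ ind p q := fun p q => by simp only [ind]; split_ifs <;> norm_num
  have hind1 : ∀ p q, ind p q ≤ 1 := fun p q => by simp only [ind]; split_ifs <;> norm_num
  have hkk0 : ∀ k p q, 0 ≤ kk k p q := fun k p q =>
    mul_nonneg (ker_nonneg (hst k).1 _ _) (ker_nonneg (hst k).2 _ _)
  have hkkc : ∀ k p q, kk k p q = kk k q p := fun k p q => by
    simp only [kk]; rw [ker_comm (s k), ker_comm (t k)]
  have hindc : ∀ p q, ind p q = ind q p := fun p q => by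
    simp only [ind, reg]; rw [dot_comm p.1, dot_comm p.2]
  have hindpp : ∀ p, ind p p = 0 := fun p => by
    simp only [ind, reg]
    rw [if_neg]
    rw [dot_self, dot_self, or_self, not_le]
    have : 0 < σ * N := mul_pos hσ hNr
    linarith
  -- row sums
  have hrow : ∀ k p, ∑ q, kk k p q = 1 := by
    intro k p
    simp only [kk]
    rw [Fintype.sum_prod_type]
    simp_rw [← Finset.mul_sum, hROW', mul_one]
    exact hROW _ _ _
  -- tails
  have htl : ∀ k p, ∑ q, kk k p q * (1 - ind p q) ≤ τ := by
    intro k p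
    rcases htail k with h | h
    · have h1 : ∀ q : PP N, kk k p q * (1 - ind p q) ≤
          (if -(σ * N) < dot p.1 q.1 then ker (s k) p.1 q.1 else 0) * ker (t k) p.2 q.2 := by
        intro q
        by_cases hq : -(σ * N) < dot p.1 q.1
        · rw [if_pos hq]
          calc kk k p q * (1 - ind p q) ≤ kk k p q * 1 :=
                mul_le_mul_of_nonneg_left (by linarith [hind0 p q]) (hkk0 k p q)
            _ = _ := by simp only [kk, mul_one]
        · have hr : ind p q = 1 := by
            simp only [ind, reg]; rw [if_pos (Or.inl (not_lt.mp hq))]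
          rw [if_neg hq, hr]; simp
      calc ∑ q, kk k p q * (1 - ind p q) ≤ ∑ q : PP N, (if -(σ * N) < dot p.1 q.1 then ker (s k) p.1 q.1 else 0)
            * ker (t k) p.2 q.2 := Finset.sum_le_sum fun q _ => h1 q
        _ = ∑ y with -(σ * N) < dot p.1 y, ker (s k) p.1 y := by
            rw [Fintype.sum_prod_type]
            simp_rw [← Finset.mul_sum, hROW', mul_one]
            rw [Finset.sum_filter]
        _ ≤ τ := h p.1
    · have h1 : ∀ q : PP N, kk k p q * (1 - ind p q) ≤
          ker (s k) p.1 q.1 * (if -(σ * N) < dot p.2 q.2 then ker (t k) p.2 q.2 else 0) := by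
        intro q
        by_cases hq : -(σ * N) < dot p.2 q.2
        · rw [if_pos hq]
          calc kk k p q * (1 - ind p q) ≤ kk k p q * 1 :=
                mul_le_mul_of_nonneg_left (by linarith [hind0 p q]) (hkk0 k p q)
            _ = _ := by simp only [kk, mul_one]
        · have hr : ind p q = 1 := by
            simp only [ind, reg]; rw [if_pos (Or.inr (not_lt.mp hq))]
          rw [if_neg hq, hr]; simp
      calc ∑ q, kk k p q * (1 - ind p q) ≤ ∑ q : PP N, ker (s k) p.1 q.1 *
            (if -(σ * N) < dot p.2 q.2 then ker (t k) p.2 q.2 else 0) := Finset.sum_le_sum fun q _ => h1 q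
        _ = ∑ y with -(σ * N) < dot p.2 y, ker (t k) p.2 y := by
            rw [Fintype.sum_prod_type]
            simp_rw [← Finset.mul_sum]
            rw [← Finset.sum_mul, hROW, one_mul, Finset.sum_filter]
        _ ≤ τ := h p.2
  -- the matrix
  let A : PP N → PP N → ℝ := fun p q => (if p = q then 1 else 0) + M * ∑ k, w k * (kk k p q * ind p q)
  have hA0 : ∀ p q, 0 ≤ A p q := fun p q => by
    simp only [A]
    refine add_nonneg (by split_ifs <;> norm_num) (mul_nonneg hM (Finset.sum_nonneg fun k _ => ?_))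
    exact mul_nonneg (hw k) (mul_nonneg (hkk0 k p q) (hind0 p q))
  have hAc : ∀ p q, A p q = A q p := fun p q => by
    simp only [A]
    rw [hindc p q]
    simp_rw [hkkc _ p q, eq_comm (a := p)]
  have hcard : (Fintype.card (PP N) : ℝ) = 4 ^ N := by
    simp only [PP, Fintype.card_prod, Fintype.card_fun, Fintype.card_fin, Fintype.card_bool]
    push_cast
    rw [← mul_pow]; norm_num
  have h4 : (0:ℝ) < 4 ^ N := by positivity
  -- quadratic form
  have hquad : ∀ v : PP N → ℝ, 0 ≤ ∑ p, ∑ q, v p * v q * A p q := by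
    intro v
    set V2 : ℝ := ∑ p, v p ^ 2 with hV2
    have hV20 : 0 ≤ V2 := Finset.sum_nonneg fun p _ => sq_nonneg _
    set cf : Finset (Fin N) → Finset (Fin N) → ℝ := fun S T => ∑ p, v p * (chi S p.1 * chi T p.2) with hcf
    -- Parseval
    have hpars : V2 = (1 / 4 ^ N) * ∑ S : Finset (Fin N), ∑ T : Finset (Fin N), (cf S T) ^ 2 := by
      have h := hFOUR N 1 1 v
      simp only [one_pow, one_mul] at h
      rw [← h, hV2]
      refine Finset.sum_congr rfl fun p _ => ?_
      have : ∀ q : PP N, v p * v q * (ker 1 p.1 q.1 * ker 1 p.2 q.2) = if p = q then v p ^ 2 else 0 := by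
        intro q
        rw [hONE, hONE]
        by_cases hpq : p = q
        · subst hpq; simp; ring
        · rw [if_neg hpq]
          have : ¬ (p.1 = q.1 ∧ p.2 = q.2) := fun h => hpq (Prod.ext h.1 h.2)
          by_cases h1 : p.1 = q.1
          · have h2 : p.2 ≠ q.2 := fun h2 => this ⟨h1, h2⟩
            rw [if_neg h2]; ring
          · rw [if_neg h1]; ring
      simp_rw [this]
      simp
    have hform : ∑ p, ∑ q, v p * v q * A p q = V2 + M * (∑ k, w k * ((∑ p, ∑ q, v p * v q * kk k p q) -
        ∑ p, ∑ q, v p * v q * (kk k p q * (1 - ind p q)))) := by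
      have e1 : ∀ p q : PP N, v p * v q * A p q = (if p = q then v p ^ 2 else 0) +
          M * ∑ k, w k * (v p * v q * kk k p q - v p * v q * (kk k p q * (1 - ind p q))) := by
        intro p q
        simp only [A]
        rw [mul_add]
        congr 1
        · by_cases hpq : p = q
          · subst hpq; simp; ring
          · simp [hpq]
        · rw [mul_left_comm, Finset.mul_sum]
          congr 1
          refine Finset.sum_congr rfl fun k _ => ?_
          ring
      simp_rw [e1, Finset.sum_add_distrib]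
      congr 1
      · rw [hV2]; refine Finset.sum_congr rfl fun p _ => ?_
        simp
      · simp_rw [← Finset.mul_sum]
        congr 1
        have e2 : ∀ p : PP N, ∑ q : PP N, ∑ k, w k * (v p * v q * kk k p q - v p * v q * (kk k p q * (1 - ind p q))) =
            ∑ k, w k * ∑ q : PP N, (v p * v q * kk k p q - v p * v q * (kk k p q * (1 - ind p q))) := by
          intro p
          rw [Finset.sum_comm]
          simp_rw [← Finset.mul_sum]
        simp_rw [e2]
        rw [Finset.sum_comm]
        refine Finset.sum_congr rfl fun k _ => ?_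
        rw [← Finset.mul_sum]
        congr 1
        simp_rw [Finset.sum_sub_distrib]
    have hT : ∀ k, ∑ p, ∑ q, v p * v q * (kk k p q * (1 - ind p q)) ≤ τ * V2 := by
      intro k
      let g : PP N → PP N → ℝ := fun p q => kk k p q * (1 - ind p q)
      have hg0 : ∀ p q, 0 ≤ g p q := fun p q => mul_nonneg (hkk0 k p q) (by linarith [hind1 p q])
      have hgc : ∀ p q, g p q = g q p := fun p q => by simp only [g]; rw [hkkc, hindc]
      have h1 : ∑ p, ∑ q, v p * v q * g p q ≤ ∑ p, ∑ q, ((v p ^ 2 / 2) * g p q + (v q ^ 2 / 2) * g p q) := by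
        refine Finset.sum_le_sum fun p _ => Finset.sum_le_sum fun q _ => ?_
        rw [← add_mul]
        refine mul_le_mul_of_nonneg_right ?_ (hg0 p q)
        nlinarith [sq_nonneg (v p - v q)]
      have h2 : ∑ p, ∑ q, ((v p ^ 2 / 2) * g p q + (v q ^ 2 / 2) * g p q) = ∑ p, v p ^ 2 * ∑ q, g p q := by
        simp_rw [Finset.sum_add_distrib]
        have h3 : ∑ p : PP N, ∑ q : PP N, (v q ^ 2 / 2) * g p q = ∑ p : PP N, ∑ q : PP N, (v p ^ 2 / 2) * g p q := by
          rw [Finset.sum_comm]
          refine Finset.sum_congr rfl fun p _ => Finset.sum_congr rfl fun q _ => ?_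
          rw [hgc q p]
        rw [h3, ← Finset.sum_add_distrib]
        refine Finset.sum_congr rfl fun p _ => ?_
        rw [← Finset.mul_sum]; ring
      calc ∑ p, ∑ q, v p * v q * g p q ≤ _ := h1
        _ = ∑ p, v p ^ 2 * ∑ q, g p q := h2
        _ ≤ ∑ p, v p ^ 2 * τ := Finset.sum_le_sum fun p _ =>
            mul_le_mul_of_nonneg_left (htl k p) (sq_nonneg _)
        _ = τ * V2 := by rw [← Finset.sum_mul, mul_comm]
    have hQ : -η * V2 ≤ ∑ k, w k * ∑ p, ∑ q, v p * v q * kk k p q := by
      have e3 : ∑ k, w k * ∑ p, ∑ q, v p * v q * kk k p q = (1 / 4 ^ N) * ∑ S : Finset (Fin N),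
          ∑ T : Finset (Fin N), (∑ k, w k * (s k ^ S.card * t k ^ T.card)) * (cf S T) ^ 2 := by
        have : ∀ k, w k * ∑ p, ∑ q, v p * v q * kk k p q = (1 / 4 ^ N) * ∑ S : Finset (Fin N),
            ∑ T : Finset (Fin N), w k * (s k ^ S.card * t k ^ T.card) * (cf S T) ^ 2 := by
          intro k
          simp only [kk]
          rw [hFOUR N (s k) (t k) v, mul_left_comm]
          congr 1
          rw [Finset.mul_sum]
          refine Finset.sum_congr rfl fun S _ => ?_
          rw [Finset.mul_sum]
          refine Finset.sum_congr rfl fun T _ => ?_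
          simp only [hcf]; ring
        simp_rw [this]
        rw [← Finset.mul_sum]
        congr 1
        rw [Finset.sum_comm]
        refine Finset.sum_congr rfl fun S _ => ?_
        rw [Finset.sum_comm]
        refine Finset.sum_congr rfl fun T _ => ?_
        rw [Finset.sum_mul]
      rw [e3, hpars]
      have : -η * ((1 / 4 ^ N) * ∑ S : Finset (Fin N), ∑ T : Finset (Fin N), (cf S T) ^ 2) =
          (1 / 4 ^ N) * ∑ S : Finset (Fin N), ∑ T : Finset (Fin N), (-η) * (cf S T) ^ 2 := by
        simp_rw [← Finset.mul_sum]; ring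
      rw [this]
      refine mul_le_mul_of_nonneg_left ?_ (by positivity)
      refine Finset.sum_le_sum fun S _ => Finset.sum_le_sum fun T _ => ?_
      exact mul_le_mul_of_nonneg_right (hmom _ _) (sq_nonneg _)
    rw [hform]
    have hS : -(η + τ) * V2 ≤ ∑ k, w k * ((∑ p, ∑ q, v p * v q * kk k p q) -
        ∑ p, ∑ q, v p * v q * (kk k p q * (1 - ind p q))) := by
      have h8 : ∀ (a b : Fin n → ℝ), ∑ k, w k * (a k - b k) = ∑ k, w k * a k - ∑ k, w k * b k := fun a b => by
        rw [← Finset.sum_sub_distrib]; exact Finset.sum_congr rfl fun k _ => mul_sub _ _ _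
      rw [h8]
      have h5 : ∑ k, w k * ∑ p, ∑ q, v p * v q * (kk k p q * (1 - ind p q)) ≤ τ * V2 := by
        calc ∑ k, w k * ∑ p, ∑ q, v p * v q * (kk k p q * (1 - ind p q)) ≤ ∑ k, w k * (τ * V2) :=
              Finset.sum_le_sum fun k _ => mul_le_mul_of_nonneg_left (hT k) (hw k)
          _ = τ * V2 := by rw [← Finset.sum_mul, hw1, one_mul]
      linarith
    have h6 : M * (-(η + τ) * V2) ≤ M * ∑ k, w k * ((∑ p, ∑ q, v p * v q * kk k p q) -
        ∑ p, ∑ q, v p * v q * (kk k p q * (1 - ind p q))) := mul_le_mul_of_nonneg_left hS hM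
    have h7 : (M * (η + τ)) * V2 ≤ 1 * V2 := mul_le_mul_of_nonneg_right hMητ hV20
    linarith
  refine ⟨Matrix.of fun p q => (1 / 4 ^ N) * A p q, ⟨?_, ?_, ?_, ?_⟩, ?_⟩
  · rw [Matrix.posSemidef_iff_dotProduct_mulVec]
    refine ⟨?_, fun v => ?_⟩
    · ext p q
      simp only [Matrix.conjTranspose_apply, Matrix.of_apply, star_trivial]
      rw [hAc]
    · have h := hquad v
      have e : star v ⬝ᵥ ((Matrix.of fun p q => (1 / 4 ^ N : ℝ) * A p q) *ᵥ v) =
          (1 / 4 ^ N) * ∑ p, ∑ q, v p * v q * A p q := by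
        simp only [dotProduct, Matrix.mulVec, Matrix.of_apply, Pi.star_apply, star_trivial]
        rw [Finset.mul_sum]
        refine Finset.sum_congr rfl fun p _ => ?_
        rw [Finset.mul_sum, Finset.mul_sum]
        refine Finset.sum_congr rfl fun q _ => ?_
        ring
      rw [e]
      exact mul_nonneg (by positivity) h
  · intro p q
    simp only [Matrix.of_apply]
    exact mul_nonneg (by positivity) (hA0 p q)
  · simp only [Matrix.trace, Matrix.diag_apply, Matrix.of_apply]
    have : ∀ p : PP N, A p p = 1 := fun p => by simp [A, hindpp p]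
    simp_rw [this, mul_one]
    rw [Finset.sum_const, Finset.card_univ, nsmul_eq_mul, hcard]
    field_simp
  · intro p q hpq
    simp only [strongSq, cubeGraph] at hpq
    obtain ⟨h1, h2, h3⟩ := hpq
    have h0 : -(σ * N) < (N:ℝ) := by
      have : 0 < σ * N := mul_pos hσ hNr
      linarith
    have h2' : -(σ * N) < dot p.1 q.1 := by
      rcases h2 with h | h
      · rw [h, dot_self]; exact h0
      · exact h.2
    have h3' : -(σ * N) < dot p.2 q.2 := by
      rcases h3 with h | h
      · rw [h, dot_self]; exact h0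
      · exact h.2
    have hi : ind p q = 0 := by
      simp only [ind, reg]
      rw [if_neg]
      push Not
      exact ⟨h2', h3'⟩
    simp only [Matrix.of_apply, A, hi, if_neg h1]
    simp
  · simp only [Matrix.of_apply]
    have e1 : ∀ p : PP N, 1 + M * (1 - τ) ≤ ∑ q, A p q := by
      intro p
      simp only [A]
      rw [Finset.sum_add_distrib]
      have e2 : ∑ q : PP N, (if p = q then (1:ℝ) else 0) = 1 := by simp
      rw [e2]
      have e3 : ∑ q : PP N, M * ∑ k, w k * (kk k p q * ind p q) = M * ∑ k, w k * ∑ q, kk k p q * ind p q := by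
        rw [← Finset.mul_sum, Finset.sum_comm]
        simp_rw [← Finset.mul_sum]
      rw [e3]
      have e4 : ∀ k, 1 - τ ≤ ∑ q, kk k p q * ind p q := by
        intro k
        have h1 := htl k p
        have h2 := hrow k p
        have h3 : ∑ q, kk k p q * (1 - ind p q) = ∑ q, kk k p q - ∑ q, kk k p q * ind p q := by
          rw [← Finset.sum_sub_distrib]
          refine Finset.sum_congr rfl fun q _ => by ring
        linarith
      have e5 : 1 - τ ≤ ∑ k, w k * ∑ q, kk k p q * ind p q := by
        calc 1 - τ = ∑ k, w k * (1 - τ) := by rw [← Finset.sum_mul, hw1, one_mul]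
          _ ≤ _ := Finset.sum_le_sum fun k _ => mul_le_mul_of_nonneg_left (e4 k) (hw k)
      have := mul_le_mul_of_nonneg_left e5 hM
      linarith
    calc 1 + M * (1 - τ) = ∑ p : PP N, (1 / 4 ^ N) * (1 + M * (1 - τ)) := by
          rw [Finset.sum_const, Finset.card_univ, nsmul_eq_mul, hcard]
          field_simp
      _ ≤ ∑ p : PP N, ∑ q : PP N, (1 / 4 ^ N) * A p q := by
          refine Finset.sum_le_sum fun p _ => ?_
          rw [← Finset.mul_sum]
          exact mul_le_mul_of_nonneg_left (e1 p) (by positivity)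

end Pool.Agent.Q264.SN
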