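import Pool.Agent.Q264.SN.Feas

/-!
# Project SN: assembly (FINAL)
-/

namespace Pool.Agent.Q264.SN

open Finset

theorem t_FINAL (hLOWER : S_LOWER) (hMONO : S_MONO) (hBDD : S_BDD) (hTWO : S_TWO) (hUP : S_UP) : S_FINAL := by
  intro r hr C
  obtain ⟨K, hK⟩ := exists_nat_ge ((r : ℝ) * C)
  obtain ⟨c, σ₀, hc, hσ₀, hσ₀2, hL⟩ := hLOWER (K + 1)
  set σ : ℝ := min σ₀ (c / (2 * 2 ^ K)) with hσ
  have h2K : (0:ℝ) < 2 ^ K := by positivity
  have hσpos : 0 < σ := lt_min hσ₀ (by positivity)
  have hσle : σ ≤ σ₀ := min_le_left _ _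
  have hσc : σ * 2 ^ K < c := by
    have h1 : σ ≤ c / (2 * 2 ^ K) := min_le_right _ _
    calc σ * 2 ^ K ≤ c / (2 * 2 ^ K) * 2 ^ K := mul_le_mul_of_nonneg_right h1 h2K.le
      _ = c / 2 := by field_simp
      _ < c := by linarith
  obtain ⟨N, hN, X, hX, hXs⟩ := hL σ hσpos hσle
  have hNr : (0:ℝ) < N := by exact_mod_cast hN
  have hσ1 : σ ≤ 1 / 2 := hσle.trans hσ₀2
  refine ⟨N, σ, ?_, ?_⟩
  · refine hTWO (Cube N) (cubeGraph N σ) (fun _ => true) (fun _ => false) ?_ ?_
    · intro h
      have := congrFun h ⟨0, hN⟩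
      simp at this
    · intro h
      have h1 := h.2
      have h2 : dot (fun _ => true : Cube N) (fun _ => false) = -(N:ℝ) := by
        simp [dot, sg]
      rw [h2] at h1
      nlinarith
  · have hle : schrijver (cubeGraph N σ) ≤ 2 / σ := by
      refine (hUP N σ hN hσpos).trans ?_
      have : 1 ≤ 1 / σ := by rw [le_div_iff₀ hσpos]; linarith
      calc 1 + 1 / σ ≤ 1 / σ + 1 / σ := by linarith
        _ = 2 / σ := by ring
    have hge : 2 ≤ schrijver (cubeGraph N σ) := by
      refine hTWO (Cube N) (cubeGraph N σ) (fun _ => true) (fun _ => false) ?_ ?_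
      · intro h
        have := congrFun h ⟨0, hN⟩
        simp at this
      · intro h
        have h1 := h.2
        have h2 : dot (fun _ => true : Cube N) (fun _ => false) = -(N:ℝ) := by
          simp [dot, sg]
        rw [h2] at h1
        nlinarith
    -- the embedding
    have h0r : 0 < r := by omega
    have h1r : 1 < r := by omega
    let f : Cube N × Cube N → (Fin r → Cube N) := fun p i =>
      if i.val = 0 then p.1 else if i.val = 1 then p.2 else fun _ => false
    have hf0 : ∀ p, f p ⟨0, h0r⟩ = p.1 := fun p => by simp [f]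
    have hf1 : ∀ p, f p ⟨1, h1r⟩ = p.2 := fun p => by simp [f]
    have hinj : Function.Injective f := by
      intro p q h
      refine Prod.ext ?_ ?_
      · rw [← hf0 p, ← hf0 q, h]
      · rw [← hf1 p, ← hf1 q, h]
    have hadj : ∀ p q, (strongProd fun _ : Fin r => cubeGraph N σ).Adj (f p) (f q) →
        (strongSq (cubeGraph N σ)).Adj p q := by
      intro p q h
      refine ⟨fun e => h.1 (by rw [e]), ?_, ?_⟩
      · have := h.2 ⟨0, h0r⟩
        rw [hf0, hf0] at this
        exact this
      · have := h.2 ⟨1, h1r⟩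
        rw [hf1, hf1] at this
        exact this
    obtain ⟨X', hX', hsum⟩ := hMONO _ _ (strongSq (cubeGraph N σ))
      (strongProd fun _ : Fin r => cubeGraph N σ) f hinj hadj X hX
    have hbdd : BddAbove (values (strongProd fun _ : Fin r => cubeGraph N σ)) :=
      ⟨_, fun t ht => hBDD _ _ t ht⟩
    have hlow : c / σ ^ (K + 1) ≤ schrijver (strongProd fun _ : Fin r => cubeGraph N σ) := by
      refine hXs.trans ?_
      rw [← hsum]
      exact le_csSup hbdd ⟨X', hX', rfl⟩
    refine lt_of_lt_of_le ?_ hlow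
    have hpos : 0 < schrijver (cubeGraph N σ) := by linarith
    rw [Finset.prod_const, Finset.card_univ, Fintype.card_fin, ← Real.rpow_natCast, ← Real.rpow_mul hpos.le]
    calc schrijver (cubeGraph N σ) ^ (C * (r:ℝ)) ≤ schrijver (cubeGraph N σ) ^ (K : ℝ) :=
          Real.rpow_le_rpow_of_exponent_le (by linarith) (by linarith [mul_comm C (r:ℝ)])
      _ = schrijver (cubeGraph N σ) ^ K := Real.rpow_natCast _ _
      _ ≤ (2 / σ) ^ K := pow_le_pow_left₀ hpos.le hle K
      _ < c / σ ^ (K + 1) := by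
          rw [div_pow, div_lt_div_iff₀ (by positivity) (by positivity), pow_succ]
          have : 0 < σ ^ K := by positivity
          nlinarith

end Pool.Agent.Q264.SN
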