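import Pool.Agent.Q264.SN.Def

/-!
# Project SN (helper264): the Schrijver number of strong products (MP_885abb_co), lemma statements

Plan: `ϑ'(G) ≤ 1 + 1/σ` for the cube graph, but `ϑ'` of its strong square is at least `c_L σ^{-L}` for every `L`:
there is a probability measure on `{x ≤ -1} ∪ {y ≤ -1}` with nonnegative mixed moments up to any order (Hahn-Banach),
and the noise kernel with means `(2 σ x_k, 2 σ y_k)` has the eigenvalues `∑ w_k (2σ x_k)^i (2σ y_k)^j`.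
-/

namespace Pool.Agent.Q264.SN

open Finset

/-- **LEAD.** Top coefficient of a sum of powers which is `≤ 0` for large arguments.
PROOF. Divide by `l^D`: for `l → ∞` the term `b k * l^(e k) / l^D` tends to `b k` if `e k = D` and to `0` if `e k < D`
(`tendsto_pow_div_pow_atTop_zero`), and it is `0` if `b k = 0`. Use `tendsto_finset_sum`, `le_of_tendsto`. -/
def S_LEAD : Prop := ∀ (ι : Type) [Fintype ι] (b : ι → ℝ) (e : ι → ℕ) (D : ℕ), (∀ k, b k ≠ 0 → e k ≤ D) →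
  (∃ l₀ : ℝ, ∀ l : ℝ, l₀ ≤ l → ∑ k, b k * l ^ e k ≤ 0) → ∑ k with e k = D, b k ≤ 0

/-- **POLY.** A polynomial with nonnegative coefficients that is `≤ 0` on `{x ≤ -1} ∪ {y ≤ -1}` is zero. (May use LEAD.)
PROOF. Suppose some `c k ≠ 0` and let `D` be the maximum of `k.1 + k.2` over the `k` with `c k ≠ 0`.
Let `e k = k.1 + k.2`.
(1) `D` even: for `l ≥ 1` take `x = y = -l`: `∑ c k (-1)^(e k) l^(e k) ≤ 0`, so by LEAD `∑_{e k = D} c k (-1)^D ≤ 0`, i.e.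
`∑_{e k = D} c k ≤ 0`, so all these `c k` are zero, contradiction to the choice of `D`.
(2) `D` odd: let `v > 0`. For `l ≥ 1` take `(x, y) = (-l, v l)`: by LEAD (`b k = c k (-1)^(k.1) v^(k.2)`)
`a(v) := ∑_{e k = D} c k (-1)^(k.1) v^(k.2) ≤ 0`. For `l ≥ 1 / v` take `(x, y) = (l, - v l)`:
`∑_{e k = D} c k (-1)^(k.2) v^(k.2) ≤ 0`, and `(-1)^(k.2) = - (-1)^(k.1)` as `k.1 + k.2 = D` is odd, so `-a(v) ≤ 0`.
So `a(v) = 0` for all `v > 0`. As a polynomial in `v` it has infinitely many roots, so it is zero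
(`Polynomial.eq_zero_of_infinite_isRoot`); its coefficient at `v^j` is `c (D - j, j) (-1)^(D-j)` (there is exactly one
`k` with `e k = D` and `k.2 = j`), so all `c k` with `e k = D` are zero, contradiction. -/
def S_POLY : Prop := ∀ (L : ℕ) (c : Fin L × Fin L → ℝ), (∀ k, 0 ≤ c k) →
  (∀ x y : ℝ, (x ≤ -1 ∨ y ≤ -1) → ∑ k, c k * (x ^ (k.1 : ℕ) * y ^ (k.2 : ℕ)) ≤ 0) → ∀ k, c k = 0

/-- **MEAS** (hypothesis `hPOLY : S_POLY`). There is a probability measure with finite support in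
`{x ≤ -1} ∪ {y ≤ -1}` all whose mixed moments of orders `i, j < L` are nonnegative.
PROOF. Let `E = Fin L × Fin L → ℝ`, `m (x,y) = (x^i y^j)_{(i,j)}`, `R = {m (x,y) | x ≤ -1 ∨ y ≤ -1}`,
`P = {a | ∀ k, 0 < a k}` (open, convex, nonempty), `C = convexHull ℝ R`. If some point lies in both `C` and `P` then we
are done by `mem_convexHull_iff_exists_fintype` (or `convexHull_eq`; reindex the finite type by `Fin n` with
`Fintype.equivFin`). Otherwise by `geometric_hahn_banach_open` there are a continuous linear `f` and `u` with `f a < u` on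
`P` and `u ≤ f b` on `C`. Put `c k = - f (Pi.single k 1)`, so `f a = - ∑ c k a k`.
(1) `c k ≥ 0`: otherwise `f (1 + t e_k) = f 1 + t f(e_k) → ∞` for `t → ∞`, but it is `< u`.
(2) `u ≥ 0`: `f (ε 1) = ε f 1 < u` for all `ε > 0`; let `ε → 0`.
(3) So `∑ c k (m (x,y)) k = - f (m (x,y)) ≤ - u ≤ 0` for all `(x,y)` with `x ≤ -1 ∨ y ≤ -1`, hence `c = 0` by POLY, so
`f = 0`, so `0 = f 1 < u` and `u ≤ f (m (-1,-1)) = 0`: contradiction. -/
def S_MEAS : Prop := ∀ L : ℕ, ∃ (n : ℕ) (w x y : Fin n → ℝ), (∀ k, 0 ≤ w k) ∧ ∑ k, w k = 1 ∧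
  (∀ k, x k ≤ -1 ∨ y k ≤ -1) ∧ ∀ i j : ℕ, i < L → j < L → 0 ≤ ∑ k, w k * (x k ^ i * y k ^ j)

/-- **ROW.** The noise kernel is stochastic. PROOF. `∑_y ∏_i f_i (y i) = ∏_i ∑_b f_i b` (`Finset.prod_univ_sum`,
`Fintype.piFinset_univ`), and `∑_b (1 + s a sg b)/2 = 1`. -/
def S_ROW : Prop := ∀ (N : ℕ) (s : ℝ) (x : Cube N), ∑ y, ker s x y = 1

/-- **TAIL.** Chernoff bound: if `s ≤ -2σ` then the inner product is `> -σN` with exponentially small probability.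
PROOF. `φ(λ) = exp (λ σ) (cosh λ - 2 σ sinh λ)` has `φ 0 = 1`, `φ' 0 = σ - 2σ < 0`, so there is `λ > 0` with
`φ λ < 1`; take `ρ = max (φ λ) 0` (or show `0 ≤ φ λ`: it is at least the sum below, which is nonnegative). For `y` with
`-(σ N) < dot x y`: `1 ≤ exp (λ (dot x y + σ N))`. So the sum is at most
`exp (λ σ N) ∑_y ∏_i (1 + s a_i) / 2 * exp (λ a_i)` with `a_i = sg (x i) sg (y i)`, and as in ROW this is
`(exp (λ σ) ((1+s)/2 exp λ + (1-s)/2 exp (-λ)))^N = (exp (λ σ) (cosh λ + s sinh λ))^N ≤ φ(λ)^N` because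
`s ≤ -2σ`, `sinh λ ≥ 0` (for `-1 ≤ s` the base is nonnegative). -/
def S_TAIL : Prop := ∀ σ : ℝ, 0 < σ → σ ≤ 1 / 2 → ∃ ρ : ℝ, 0 ≤ ρ ∧ ρ < 1 ∧ ∀ (N : ℕ) (s : ℝ), -1 ≤ s →
  s ≤ -(2 * σ) → ∀ x : Cube N, ∑ y with -(σ * N) < dot x y, ker s x y ≤ ρ ^ N

/-- **FOUR.** Fourier expansion of the quadratic form of the product kernel.
PROOF. `∏_i (1 + s a_i) = ∑_S s^|S| ∏_{i ∈ S} a_i` (`Finset.prod_one_add` or `Finset.prod_add`), so
`ker s x y = 2^{-N} ∑_S s^|S| chi S x chi S y`; multiply the expansions for `s` and `t`, and exchange the sums. -/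
def S_FOUR : Prop := ∀ (N : ℕ) (s t : ℝ) (v : Cube N × Cube N → ℝ),
  ∑ p, ∑ q, v p * v q * (ker s p.1 q.1 * ker t p.2 q.2) =
    (1 / 4 ^ N) * ∑ S : Finset (Fin N), ∑ T : Finset (Fin N), s ^ S.card * t ^ T.card *
      (∑ p, v p * (chi S p.1 * chi T p.2)) ^ 2

/-- **ONE.** `ker 1` is the identity. PROOF. A factor `(1 + sg (x i) sg (y i))/2` is `1` if `x i = y i` and `0`
otherwise. -/
def S_ONE : Prop := ∀ (N : ℕ) (x y : Cube N), ker 1 x y = if x = y then 1 else 0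

/-- **MONO.** Monotonicity under embeddings `f` that reflect adjacency. PROOF. Given `X` feasible for `G` let
`P : Matrix V W ℝ`, `P a u = if f a = u then 1 else 0`, and `X' = Pᵀ * X * P`, i.e.
`X' u v = ∑_{a, b} [f a = u] [f b = v] X a b`. It is positive semidefinite
(`Matrix.PosSemidef.conjTranspose_mul_mul_same`), nonnegative, has the same sum of entries, and by injectivity the same
trace; if `H.Adj u v` then every nonzero term has `f a = u`, `f b = v`, so `G.Adj a b` and `X a b = 0`. -/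
def S_MONO : Prop := ∀ (V W : Type) [Fintype V] [Fintype W] (G : SimpleGraph V)
  (H : SimpleGraph W) (f : V → W), Function.Injective f → (∀ a b, H.Adj (f a) (f b) → G.Adj a b) →
  ∀ X : Matrix V V ℝ, Feasible G X → ∃ X' : Matrix W W ℝ, Feasible H X' ∧ ∑ u, ∑ v, X' u v = ∑ a, ∑ b, X a b

/-- **BDD.** The values are bounded by the number of vertices. PROOF. For `X` positive semidefinite (real)
`2 X u v ≤ X u u + X v v` (quadratic form at `e_u - e_v`, symmetry); sum over all `u, v`: `∑ X u v ≤ n * trace = n`. -/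
def S_BDD : Prop := ∀ (V : Type) [Fintype V] (G : SimpleGraph V), ∀ t ∈ values G,
  t ≤ Fintype.card V

/-- **TWO** (hypothesis `hBDD : S_BDD`). Two distinct nonadjacent vertices give `2 ≤ ϑ'`. PROOF. The matrix
`X = (1/2) e eᵀ`, `e` the indicator of `{a, b}` (`Matrix.posSemidef_vecMulVec_self_star` or directly), is feasible with
sum of entries `2`; `le_csSup`. -/
def S_TWO : Prop := ∀ (V : Type) [Fintype V] (G : SimpleGraph V) (a b : V), a ≠ b → ¬ G.Adj a b →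
  2 ≤ schrijver G

/-- **UP.** `ϑ'` of the cube graph is at most `1 + 1/σ`. PROOF. For `X` feasible,
`0 ≤ ∑_i ∑_{x,y} X x y sg (x i) sg (y i) = ∑_{x,y} X x y dot x y` (positive semidefiniteness at the vectors
`x ↦ sg (x i)`). For `x = y`, `dot x y = N`; for `x ≠ y`, either `X x y = 0` or (not adjacent) `dot x y ≤ -(σ N)`. So
`0 ≤ N * 1 - σ N ∑_{x ≠ y} X x y`, hence `∑_{x ≠ y} X x y ≤ 1/σ`. Then `csSup_le` (the set of values is nonempty: the
matrix with one entry `1` on the diagonal; or use `Real.sSup_le`, which needs only `0 ≤ 1 + 1/σ`). -/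
def S_UP : Prop := ∀ (N : ℕ) (σ : ℝ), 0 < N → 0 < σ → schrijver (cubeGraph N σ) ≤ 1 + 1 / σ

/-- **FEAS** (hypotheses `hROW : S_ROW`, `hFOUR : S_FOUR`, `hONE : S_ONE`). The feasible matrix on the strong square.
PROOF. Let `reg p q :⇔ dot p.1 q.1 ≤ -(σ N) ∨ dot p.2 q.2 ≤ -(σ N)`,
`A p q = [p = q] + M ∑_k w k ker (s k) p.1 q.1 ker (t k) p.2 q.2 [reg p q]`, `X = 4^{-N} A`.
(1) `ker ≥ 0` as `|s k|, |t k| ≤ 1`; so `X ≥ 0` entrywise. `ker`, `dot` are symmetric.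
(2) `¬ reg p p` as `dot x x = N > -(σ N)`; so `A p p = 1` and `trace X = 1` (`card (Cube N × Cube N) = 4^N`).
(3) if `p, q` are adjacent in the strong square then `p ≠ q` and `¬ reg p q`, so `X p q = 0`.
(4) tails: `∑_q ker (s k) p.1 q.1 ker (t k) p.2 q.2 [¬ reg p q] ≤ τ` for all `p, k`: `¬ reg` means both inner products
are `> -(σ N)`; bound one indicator by `1`, use ROW for this factor, and the hypothesis for the other.
(5) sum: `∑_{p,q} A p q = 4^N + M ∑_k w k ∑_p (1 - tail_k p) ≥ 4^N (1 + M (1 - τ))` by ROW and (4).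
(6) positive semidefinite: for `v`, `∑ v p v q A p q = |v|² + M ∑_k w k (Q_k - T_k)`, `Q_k` the form of the whole kernel,
`T_k` that of the kernel times `[¬ reg]`. `T_k ≤ τ |v|²` by `v p v q ≤ (v p² + v q²)/2`, symmetry and (4). By FOUR
`Q_k = 4^{-N} ∑_{S,T} (s k)^|S| (t k)^|T| c_{S,T}²` with `c_{S,T} = ∑_p v p chi S p.1 chi T p.2`, and (FOUR with
`s = t = 1`, ONE) `|v|² = 4^{-N} ∑ c_{S,T}²`. So `∑_k w k Q_k ≥ -η |v|²`, and the form is
`≥ (1 - M (η + τ)) |v|² ≥ 0`. -/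
def S_FEAS : Prop := ∀ (N : ℕ) (σ M η τ : ℝ) (n : ℕ) (w s t : Fin n → ℝ), 0 < N → 0 < σ → 0 ≤ M →
  M * (η + τ) ≤ 1 → (∀ k, 0 ≤ w k) → ∑ k, w k = 1 → (∀ k, |s k| ≤ 1 ∧ |t k| ≤ 1) →
  (∀ k, (∀ x : Cube N, ∑ y with -(σ * N) < dot x y, ker (s k) x y ≤ τ) ∨
    (∀ x : Cube N, ∑ y with -(σ * N) < dot x y, ker (t k) x y ≤ τ)) →
  (∀ i j : ℕ, -η ≤ ∑ k, w k * (s k ^ i * t k ^ j)) →
  ∃ X : Matrix (Cube N × Cube N) (Cube N × Cube N) ℝ, Feasible (strongSq (cubeGraph N σ)) X ∧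
    1 + M * (1 - τ) ≤ ∑ u, ∑ v, X u v

/-- **LOWER** (hypotheses `hMEAS : S_MEAS`, `hTAIL : S_TAIL`, `hFEAS : S_FEAS`). The strong square has a feasible matrix
with sum of entries at least `c σ^{-L}` (for `N ≥ N₀`, in particular some `N > 0`).
PROOF. Take the measure of MEAS for `L`, `A ≥ 1` an upper bound for all `|x k|, |y k|`. Let `σ₀ = 1/(2A)`,
`c = 1 / (4 (2A)^L)`. Given `0 < σ ≤ σ₀` let `s k = 2 σ x k`, `t k = 2 σ y k`, `η = (2 σ A)^L`, `M = 1/(2η)`. Then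
`|s k|, |t k| ≤ 2 σ A ≤ 1`. `s k ≤ -(2σ)` or `t k ≤ -(2σ)`. Let `ρ` be from TAIL and `N > 0` so large that
`τ := ρ^N` satisfies `M τ ≤ 1/2`, `τ ≤ 1/2`. So `M (η + τ) ≤ 1`. Moments: if `i, j < L` then
`∑ w k (s k)^i (t k)^j = (2σ)^(i+j) ∑ w k (x k)^i (y k)^j ≥ 0 ≥ -η`; otherwise `i ≥ L` or `j ≥ L` and
`|(s k)^i (t k)^j| ≤ (2σA)^(max i j) ≤ (2 σ A)^L = η`. By FEAS the sum of entries is at least
`1 + M/2 ≥ M / 2 = 1 / (4 (2 σ A)^L) = c / σ^L`. -/
def S_LOWER : Prop := ∀ L : ℕ, ∃ c σ₀ : ℝ, 0 < c ∧ 0 < σ₀ ∧ σ₀ ≤ 1 / 2 ∧ ∀ σ : ℝ, 0 < σ → σ ≤ σ₀ → ∃ N : ℕ, 0 < N ∧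
  ∃ X : Matrix (Cube N × Cube N) (Cube N × Cube N) ℝ, Feasible (strongSq (cubeGraph N σ)) X ∧
    c / σ ^ L ≤ ∑ u, ∑ v, X u v

/-- **FINAL** (hypotheses `hLOWER : S_LOWER`, `hMONO : S_MONO`, `hBDD : S_BDD`, `hTWO : S_TWO`, `hUP : S_UP`).
PROOF. Let `K : ℕ` with `r * C ≤ K`, `L = K + 1`, `c, σ₀` from LOWER, `σ ≤ σ₀`, `σ ≤ 1/2` so small that
`σ * 2^K < c` and let `N` be as in LOWER, `G = cubeGraph N σ`. `ϑ'(G) ≥ 2` by TWO for `x = all true`, `y = all false`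
(`dot = -N ≤ -(σ N)`, distinct as `N > 0`). `ϑ'(G) ≤ 1 + 1/σ ≤ 2/σ` by UP. The product of `r` factors is
`(ϑ'(G)^C)^r = ϑ'(G)^(r C) ≤ ϑ'(G)^K ≤ (2/σ)^K < c/σ^L`. Embed `Cube N × Cube N` into `Fin r → Cube N` by
`f (a,b) = fun i => if i = 0 then a else if i = 1 then b else (all false)` (values at `i.val`), which is injective and
reflects adjacency; MONO gives a feasible matrix with the same sum, `≥ c/σ^L`, and `le_csSup` (BDD) finishes. -/
def S_FINAL : Prop := ∀ r : ℕ, 2 ≤ r → ∀ C : ℝ, ∃ (N : ℕ) (σ : ℝ), 2 ≤ schrijver (cubeGraph N σ) ∧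
  ∏ _i : Fin r, schrijver (cubeGraph N σ) ^ C < schrijver (strongProd fun _ : Fin r => cubeGraph N σ)

end Pool.Agent.Q264.SN
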